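import Pool.Agent.Helper85_CYD.St1

/-! # CYD: GAL -/

set_option autoImplicit false

open Polynomial

namespace Pool.Agent.CYD

namespace Gal26

theorem prim_mul {K : Type} [Field K] {p q : ℕ} (hpq : p.Coprime q) {c w : K}
    (hc : IsPrimitiveRoot c q) (hw : IsPrimitiveRoot w p) : IsPrimitiveRoot (c * w) (p * q) := by
  have h1 := (Commute.all c w).orderOf_mul_eq_mul_orderOf_of_coprime (by
    rw [← hc.eq_orderOf, ← hw.eq_orderOf]
    exact hpq.symm)
  rw [← hc.eq_orderOf, ← hw.eq_orderOf, mul_comm q p] at h1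
  rw [← h1]
  exact IsPrimitiveRoot.orderOf _

theorem pow_crt {K : Type} [Field K] {p q : ℕ} {c w : K}
    (hc : c ^ q = 1) (hw : w ^ p = 1) {a : ℕ} (h1 : a ≡ 1 [MOD q]) (h2 : a ≡ 0 [MOD p]) :
    (c * w) ^ a = c := by
  rw [mul_pow]
  have e1 : c ^ a = c := by
    rw [pow_eq_pow_mod a hc, h1, ← pow_eq_pow_mod 1 hc, pow_one]
  have e2 : w ^ a = 1 := by
    rw [pow_eq_pow_mod a hw, h2, ← pow_eq_pow_mod 0 hw, pow_zero]
  rw [e1, e2, mul_one]

end Gal26

open Gal26 in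
theorem gal : GalStmt := by
  intro p q hp hq hpq K _ _ _ c w c' w' hc hw hc' hw'
  have hcop : p.Coprime q := (Nat.coprime_primes hp hq).mpr hpq
  have hz := prim_mul hcop hc hw
  have hz' := prim_mul hcop hc' hw'
  have : NeZero (p * q) := ⟨Nat.mul_ne_zero hp.ne_zero hq.ne_zero⟩
  have hirr : Irreducible (cyclotomic (p * q) ℚ) :=
    cyclotomic.irreducible_rat (Nat.mul_pos hp.pos hq.pos)
  have hmin : minpoly ℚ (hz.powerBasis ℚ).gen = minpoly ℚ (hz'.powerBasis ℚ).gen := by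
    rw [hz.powerBasis_gen ℚ, hz'.powerBasis_gen ℚ,
      ← hz.minpoly_eq_cyclotomic_of_irreducible hirr,
      ← hz'.minpoly_eq_cyclotomic_of_irreducible hirr]
  let σ : K ≃ₐ[ℚ] K := (hz.powerBasis ℚ).equivOfMinpoly (hz'.powerBasis ℚ) hmin
  have hσ : σ (c * w) = c' * w' := by
    have := (hz.powerBasis ℚ).equivOfMinpoly_gen (hz'.powerBasis ℚ) hmin
    rw [hz.powerBasis_gen ℚ, hz'.powerBasis_gen ℚ] at this
    exact this
  obtain ⟨a, ha1, ha2⟩ := Nat.chineseRemainder hcop.symm 1 0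
  obtain ⟨b, hb1, hb2⟩ := Nat.chineseRemainder hcop 1 0
  refine ⟨σ, ?_, ?_⟩
  · have e1 := pow_crt hc.pow_eq_one hw.pow_eq_one ha1 ha2
    have e2 := pow_crt hc'.pow_eq_one hw'.pow_eq_one ha1 ha2
    rw [← e1, map_pow, hσ, e2]
  · have e1 := pow_crt hw.pow_eq_one hc.pow_eq_one hb1 hb2
    have e2 := pow_crt hw'.pow_eq_one hc'.pow_eq_one hb1 hb2
    rw [← e1, mul_comm w c, map_pow, hσ, mul_comm c' w', e2]

end Pool.Agent.CYD
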