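import Pool.Agent.Helper85_CYD.StG

/-! # CYD: REV -/

set_option autoImplicit false

open Polynomial

namespace Pool.Agent.CYD

namespace Rev26

theorem reverse_prod {ι : Type*} (s : Finset ι) (f : ι → ℤ[X]) :
    (∏ i ∈ s, f i).reverse = ∏ i ∈ s, (f i).reverse := by
  classical
  induction s using Finset.induction_on with
  | empty =>
    rw [Finset.prod_empty, Finset.prod_empty]
    rw [← C_1, reverse_C]
  | insert i s hi ih =>
    rw [Finset.prod_insert hi, Finset.prod_insert hi, reverse_mul_of_domain, ih]

theorem reverse_X_pow_sub_one {n : ℕ} (hn : 0 < n) :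
    (X ^ n - 1 : ℤ[X]).reverse = - (X ^ n - 1) := by
  ext i
  rw [coeff_reverse]
  have hd : (X ^ n - 1 : ℤ[X]).natDegree = n := natDegree_X_pow_sub_C (r := (1 : ℤ))
  rw [hd]
  rcases le_or_gt i n with h | h
  · rw [revAt_le h, coeff_neg, coeff_sub, coeff_sub, coeff_X_pow, coeff_X_pow, coeff_one, coeff_one]
    split_ifs <;> omega
  · rw [revAt_eq_self_of_lt h, coeff_neg, coeff_sub, coeff_X_pow, coeff_one]
    split_ifs <;> omega

theorem reverse_cyclotomic (n : ℕ) (hn : 0 < n) : (cyclotomic n ℤ).reverse =
    (if n = 1 then -1 else 1) * cyclotomic n ℤ := by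
  induction n using Nat.strong_induction_on with
  | _ n ih =>
    by_cases h1 : n = 1
    · subst h1
      have := reverse_X_pow_sub_one (n := 1) one_pos
      rw [pow_one] at this
      rw [cyclotomic_one, this, if_pos rfl]
      ring
    · rw [if_neg h1, one_mul]
      have h2 := prod_cyclotomic_eq_X_pow_sub_one hn ℤ
      have h3 : n.divisors = insert n n.properDivisors :=
        (Nat.insert_self_properDivisors hn.ne').symm
      rw [h3, Finset.prod_insert Nat.self_notMem_properDivisors] at h2
      have h4 := congrArg reverse h2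
      rw [reverse_mul_of_domain, reverse_prod, reverse_X_pow_sub_one hn] at h4
      have h5 : ∏ i ∈ n.properDivisors, (cyclotomic i ℤ).reverse =
          - ∏ i ∈ n.properDivisors, cyclotomic i ℤ := by
        have h6 : ∀ i ∈ n.properDivisors, (cyclotomic i ℤ).reverse =
            (if i = 1 then -1 else 1) * cyclotomic i ℤ := by
          intro i hi
          rw [Nat.mem_properDivisors] at hi
          exact ih i hi.2 (Nat.pos_of_dvd_of_pos hi.1 hn)
        rw [Finset.prod_congr rfl h6, Finset.prod_mul_distrib]
        have h7 : ∏ i ∈ n.properDivisors, (if i = 1 then (-1 : ℤ[X]) else 1) = -1 := by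
          rw [Finset.prod_ite_eq' n.properDivisors 1 (fun _ => (-1 : ℤ[X]))]
          rw [if_pos]
          rw [Nat.mem_properDivisors]
          exact ⟨one_dvd _, by omega⟩
        rw [h7]
        ring
      rw [h5, ← h2] at h4
      have h8 : (∏ i ∈ n.properDivisors, cyclotomic i ℤ) ≠ 0 :=
        Finset.prod_ne_zero_iff.mpr fun i _ => cyclotomic_ne_zero i ℤ
      apply mul_right_cancel₀ h8
      linear_combination (-1 : ℤ[X]) * h4

end Rev26

open Rev26 in
theorem rev : RevStmt := by
  intro n hn
  have hr := reverse_cyclotomic n (by omega)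
  rw [if_neg (by omega), one_mul] at hr
  have hd := natDegree_cyclotomic n ℤ
  have hN : 0 < n.totient := Nat.totient_pos.mpr (by omega)
  have hd' : (derivative (cyclotomic n ℤ)).natDegree = n.totient - 1 := by
    apply le_antisymm
    · have := natDegree_derivative_le (cyclotomic n ℤ)
      rw [hd] at this
      exact this
    · apply le_natDegree_of_ne_zero
      rw [coeff_derivative]
      have e : n.totient - 1 + 1 = (cyclotomic n ℤ).natDegree := by
        rw [hd]
        omega
      rw [e, coeff_natDegree, (cyclotomic.monic n ℤ).leadingCoeff, one_mul]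
      positivity
  have key : ∀ i ≤ n.totient, (cyclotomic n ℤ).coeff (n.totient - i) =
      (cyclotomic n ℤ).coeff i := by
    intro i hi
    have h1 := congrArg (fun f => f.coeff i) hr
    simp only [coeff_reverse] at h1
    rw [hd, revAt_le hi] at h1
    exact h1
  have hbig : ∀ i, n.totient < i → (cyclotomic n ℤ).coeff i = 0 := by
    intro i hi
    apply coeff_eq_zero_of_natDegree_lt
    rw [hd]
    exact hi
  ext i
  rw [coeff_add, coeff_C_mul, coeff_reverse, hd']
  have h1 : (X * derivative (cyclotomic n ℤ)).coeff i = i * (cyclotomic n ℤ).coeff i := by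
    cases i with
    | zero => simp
    | succ i =>
      rw [coeff_X_mul, coeff_derivative]
      push_cast
      ring
  rw [h1]
  rcases lt_or_ge i n.totient with h | h
  · rw [revAt_le (by omega), coeff_derivative]
    have h2 : n.totient - 1 - i + 1 = n.totient - i := by omega
    rw [h2, key i h.le]
    have h3 : ((n.totient - 1 - i : ℕ) : ℤ) = n.totient - 1 - i := by omega
    rw [h3]
    ring
  · rw [revAt_eq_self_of_lt (by omega), coeff_derivative, hbig (i + 1) (by omega)]
    rcases h.eq_or_lt with h2 | h2
    · rw [h2]
      ring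
    · rw [hbig i h2]
      ring

end Pool.Agent.CYD
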